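import Pool.Agent.H83.UE.Targets3

/-!
# MP_75a732_an, row RDN: reduction of the powers of a root
-/

set_option autoImplicit false

open Polynomial
open scoped OnePoint ComplexConjugate ComplexOrder Laplacian Nat

namespace Pool.Agent.H77.UDB

open Pool.Agent.H83.UE

theorem coeff_pol {k : ℕ} (a : Fin (k + 1) → ℂ) (j : Fin (k + 1)) : (pol a).coeff j = a j := by
  unfold pol
  rw [finsetSum_coeff]
  simp only [coeff_C_mul_X_pow, Fin.val_inj]
  rw [Finset.sum_ite_eq Finset.univ j a, if_pos (Finset.mem_univ j)]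

theorem coeff_pol' {k : ℕ} (a : Fin (k + 1) → ℂ) (j : ℕ) (hj : k < j) : (pol a).coeff j = 0 := by
  unfold pol
  rw [finsetSum_coeff]
  refine Finset.sum_eq_zero fun i _ => ?_
  rw [coeff_C_mul_X_pow, if_neg]
  have := i.2
  omega

theorem root_rel {k : ℕ} (a : Fin (k + 1) → ℂ) (n : ℕ)
    (ha : ∀ i : Fin (k + 1), n + 1 < (i : ℕ) → a i = 0) (ζ : ℂ) (h : (pol a).eval ζ = 0) :
    (pol a).coeff (n + 1) * ζ ^ (n + 1) =
      -∑ i : Fin (n + 1), (pol a).coeff (i : ℕ) * ζ ^ (i : ℕ) := by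
  have hd : (pol a).natDegree < n + 2 := by
    rw [Nat.lt_succ_iff, natDegree_le_iff_coeff_eq_zero]
    intro j hj
    rcases lt_or_ge k j with hk | hk
    · exact coeff_pol' a j hk
    · have h1 := coeff_pol a ⟨j, by omega⟩
      have h2 := ha ⟨j, by omega⟩ hj
      rw [h2] at h1
      exact h1
  rw [eval_eq_sum_range' hd, Finset.sum_range_succ, Finset.sum_range] at h
  linear_combination h

theorem ex_cons {n : ℕ} {A : Type} (a : A) (f : Fin n → A) :
    ∃ Q : Fin (n + 1) → A, Q 0 = a ∧ ∀ j : Fin n, Q j.succ = f j :=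
  ⟨Fin.cons a f, rfl, fun _ => rfl⟩

theorem pf_RDN : T_RDN := by
  intro k k' hk' hkk s
  obtain ⟨n, rfl⟩ : ∃ n, k' = n + 1 := ⟨k' - 1, by omega⟩
  induction s with
  | zero =>
    refine ⟨fun i => if i = 0 then 1 else 0, fun i => ?_, fun a ha ζ hζ => ?_⟩
    · by_cases h : i = 0
      · simp only [if_pos h]
        exact MvPolynomial.isHomogeneous_one _ _
      · simp only [if_neg h]
        exact MvPolynomial.isHomogeneous_zero _ _ _
    · rw [pow_zero, Fin.sum_univ_succ]
      simp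
  | succ s ih =>
    obtain ⟨q, hq, hq'⟩ := ih
    have hcX : ∀ i : Fin (n + 1), (i : ℕ) < k + 1 := fun i => by have := i.2; omega
    have hkn : n + 1 < k + 1 := by omega
    obtain ⟨Q, hQ0, hQs⟩ := ex_cons (0 : MvPolynomial (Fin (k + 1)) ℂ)
      (fun j : Fin n => MvPolynomial.X (⟨n + 1, hkn⟩ : Fin (k + 1)) * q j.castSucc)
    refine ⟨fun i => Q i - MvPolynomial.X ⟨(i : ℕ), hcX i⟩ * q (Fin.last n),
      fun i => ?_, fun a ha ζ hζ => ?_⟩
    · have h2 : (MvPolynomial.X ⟨(i : ℕ), hcX i⟩ * q (Fin.last n) :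
          MvPolynomial (Fin (k + 1)) ℂ).IsHomogeneous (s + 1) := by
        have := (MvPolynomial.isHomogeneous_X ℂ (⟨(i : ℕ), hcX i⟩ : Fin (k + 1))).mul
          (hq (Fin.last n))
        rw [Nat.add_comm s 1]
        exact this
      have h1 : (Q i).IsHomogeneous (s + 1) := by
        induction i using Fin.cases with
        | zero => rw [hQ0]; exact MvPolynomial.isHomogeneous_zero _ _ _
        | succ j =>
          have := (MvPolynomial.isHomogeneous_X ℂ (⟨n + 1, hkn⟩ : Fin (k + 1))).mul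
            (hq j.castSucc)
          rw [hQs, Nat.add_comm s 1]
          exact this
      exact h1.sub h2
    · have h1 := hq' a ha ζ hζ
      have h2 := root_rel a n ha ζ hζ
      rw [pow_succ, h1]
      have hA : a ⟨n + 1, hkn⟩ = (pol a).coeff (n + 1) :=
        (coeff_pol a ⟨n + 1, hkn⟩).symm
      have hB : ∀ i : Fin (n + 1), a ⟨(i : ℕ), hcX i⟩ = (pol a).coeff (i : ℕ) := fun i =>
        (coeff_pol a ⟨(i : ℕ), hcX i⟩).symm
      have h3 : ∑ i : Fin (n + 1), MvPolynomial.eval a (Q i -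
          MvPolynomial.X ⟨(i : ℕ), hcX i⟩ * q (Fin.last n)) * ζ ^ (i : ℕ) =
          (∑ i : Fin (n + 1), MvPolynomial.eval a (Q i) * ζ ^ (i : ℕ)) -
          MvPolynomial.eval a (q (Fin.last n)) *
            ∑ i : Fin (n + 1), (pol a).coeff (i : ℕ) * ζ ^ (i : ℕ) := by
        rw [Finset.mul_sum, ← Finset.sum_sub_distrib]
        refine Finset.sum_congr rfl fun i _ => ?_
        rw [map_sub, map_mul, MvPolynomial.eval_X, hB]
        ring
      have h4 : ∑ i : Fin (n + 1), MvPolynomial.eval a (Q i) * ζ ^ (i : ℕ) =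
          ((pol a).coeff (n + 1) * ζ) *
          ∑ x : Fin n, (MvPolynomial.eval a) (q x.castSucc) * ζ ^ (x : ℕ) := by
        rw [Fin.sum_univ_succ, hQ0, map_zero, zero_mul, zero_add, Finset.mul_sum]
        refine Finset.sum_congr rfl fun i _ => ?_
        rw [hQs, map_mul, MvPolynomial.eval_X, hA, Fin.val_succ]
        ring
      rw [h3, h4, Fin.sum_univ_castSucc]
      simp only [Fin.val_castSucc, Fin.val_last]
      linear_combination (MvPolynomial.eval a) (q (Fin.last n)) * h2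

end Pool.Agent.H77.UDB
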